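import Pool.Agent.H941.QK.Res
import Pool.Agent.H941.SC.Curve
import Pool.Agent.H941.TF.Wrap

set_option autoImplicit false

/-! # The root `-3/d` for the classes of this folder -/

namespace Pool.Agent.H941.ST

open MvPolynomial Pool.Agent.H628R4.TP Pool.Agent.H941.TF Pool.Agent.H941.SC
  Pool.Agent.H941.QH Pool.Agent.H941.QK

/-- forms with transversal components -/
theorem trans_root {f : MvPolynomial (Fin 3) ℂ} {d : ℕ} (hf : f.IsHomogeneous d)
    (h : (∃ m, SmoothComp m f) ∨ TwoLines f) :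
    0 < d ∧ f ≠ 0 ∧ ∀ b : Polynomial ℂ, IsBFunction f b → b.eval (-3 / d : ℂ) = 0 := by
  rcases h with ⟨m, h⟩ | h
  · exact ⟨h.deg hf, h.ne, fun b hb => smooth_single hf h b hb⟩
  · have h1 := not_exact_lines hf h
    exact ⟨h1.1, h1.2.1, fun b hb => lines_single f d hf h b hb⟩

/-- the class `CubicChain` -/
theorem cubic_root {f : MvPolynomial (Fin 3) ℂ} {d : ℕ} (hf : f.IsHomogeneous d)
    (h : CubicChain f) :
    0 < d ∧ f ≠ 0 ∧ ∀ b : Polynomial ℂ, IsBFunction f b → b.eval (-3 / d : ℂ) = 0 :=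
  ⟨h.deg hf, h.ne, fun b hb => cubic_single hf h b hb⟩

end Pool.Agent.H941.ST
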