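import Pool.Agent.H941.ST.Root
import Pool.Graph.R_pool_sql_team_seeded_620a6dc7.helper748_mc_.PenThm

set_option autoImplicit false

/-! # The forms `∑ y_j f_j` with a good member of the linear system -/

namespace Pool.Agent.H941.ST

open MvPolynomial Pool.Agent.W574.CN Pool.Agent.W574.MO Pool.Agent.W574.HS Pool.Agent.W574.SM
  Pool.Agent.H628R4.TP Pool.Agent.Helper748.MC Pool.Agent.H941.TF Pool.Agent.H941.SC
  Pool.Agent.H941.QK

/-- the classes of members -/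
theorem sys_root {ι : Type} [Fintype ι] [DecidableEq ι] (f : ι → MvPolynomial (Fin 3) ℂ) (d : ℕ)
    (hf : ∀ j, (f j).IsHomogeneous d) (lam : ι → ℂ)
    (h : CubicChain (lcomb f lam) ∨ (∃ m, SmoothComp m (lcomb f lam) ∧ 3 * m ≠ d) ∨
      TwoLines (lcomb f lam)) :
    0 < d ∧ (∃ j, f j ≠ 0) ∧
      ∀ b : Polynomial ℂ, IsFunctionalEq f b → b.eval (-3 / d : ℂ) = 0 := by
  have hL := lcomb_homog hf lam
  rcases h with h | ⟨m, h, h3⟩ | h
  · exact ⟨h.deg hL, exists_ne_of_lcomb h.ne, fun b hb => cubic_ideal f hf lam h b hb⟩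
  · exact ⟨h.deg hL, exists_ne_of_lcomb h.ne, fun b hb => smooth_ideal f hf lam h h3 b hb⟩
  · have h1 := not_exact_lines hL h
    exact ⟨h1.1, exists_ne_of_lcomb h1.2.1, fun b hb => lines_ideal f d hf lam h b hb⟩

/-- the poles of the topological zeta function of `∑ y_j f_j` -/
theorem form_poles {ι : Type} [Fintype ι] [DecidableEq ι] (f : ι → MvPolynomial (Fin 3) ℂ) (d : ℕ)
    (hf : ∀ j, (f j).IsHomogeneous d) (lam : ι → ℂ)
    (h : CubicChain (lcomb f lam) ∨ (∃ m, SmoothComp m (lcomb f lam) ∧ 3 * m ≠ d) ∨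
      TwoLines (lcomb f lam))
    (b : Polynomial ℂ) (hb : IsBFunction (univ f) b ∨ IsLocalBFunction (univ f) b) :
    b.eval (-3 / d : ℂ) = 0 ∧
      ∀ Z : RatFunc ℂ, ConeFormZeta f d Z → ∀ s₀ : ℂ, Z.denom.eval s₀ = 0 → b.eval s₀ = 0 := by
  obtain ⟨hd, hne, hr⟩ := sys_root f d hf lam h
  have hb' : IsBFunction (univ f) b := hb.elim id fun hb => bfun_of_local f d hf hne b hb
  have h3 := hr b (functionalEq_of_univ f b hb')
  exact ⟨h3, fun Z hZ s₀ hs₀ => top_form_of f d hd hf hne b hb' h3 Z hZ s₀ hs₀⟩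

/-- the classes of single forms -/
theorem one_root {f : MvPolynomial (Fin 3) ℂ} {d : ℕ} (hf : f.IsHomogeneous d)
    (h : CubicChain f ∨ (∃ m, SmoothComp m f) ∨ TwoLines f) :
    0 < d ∧ f ≠ 0 ∧ ∀ b : Polynomial ℂ, IsBFunction f b → b.eval (-3 / d : ℂ) = 0 :=
  h.elim (cubic_root hf) (trans_root hf)

end Pool.Agent.H941.ST
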