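import Pool.Agent.H942.T3.FamMain
import Pool.Agent.H940.P.Top

set_option autoImplicit false
set_option linter.unusedSectionVars false
set_option linter.unusedVariables false

/-! # The hypersurfaces of the classes `GermT` and `FamT` -/

namespace Pool.Agent.H941.ST3

open MvPolynomial Pool.Agent.H942.T3 Pool.Agent.W428.MOT Pool.Agent.TH192.MT Pool.Agent.TH192.DT
  Pool.Agent.Q49.CO Pool.Agent.Q57.QM Pool.Agent.Y229 Pool.Agent.Q57.MC Pool.Agent.Q57.MD
open Pool.Agent.TH192.MU (zetaId IsTopZeta)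
open Pool.Agent.H628R4.TP (IsBFunction IsLocalBFunction)

variable {n : ℕ} {R : Type} [CommRing R] [IsDomain R] (E : MK ℂ →+* R) (ε : R →+* ℂ)
  (hε : ε (E ((Lu ℂ : (MK ℂ)ˣ) : MK ℂ)) = 1) (hE : E ((Lu ℂ : (MK ℂ)ˣ) : MK ℂ) ≠ 1)

include hε hE

/-- The poles of the local topological zeta function of a hypersurface of the class. -/
theorem germ_hyp {c : Bool} {f : MvPolynomial (Fin n) ℂ} (h : GermT c n 1 fun _ => f)
    (Z : RatFunc ℂ) (hZ : IsTopZeta E ε (zetaO f) Z) (s₀ : ℂ) (hs : Z.denom.eval s₀ = 0)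
    (b : Polynomial ℂ) (hb : IsLocalBFunction f b) : b.eval s₀ = 0 := by
  rw [← zetaJ_one] at hZ
  exact germT_top E ε hε hE h Z hZ s₀ hs b (localBI_one f b hb)

/-- The poles of the global topological zeta function of a hypersurface of the class. -/
theorem fam_hyp {c : Bool} {f : MvPolynomial (Fin n) ℂ} (h : FamT c n 1 fun _ => f)
    (Z : RatFunc ℂ) (hZ : IsTopZeta E ε (zetaM f Set.univ {c | c ≠ 0}) Z) (s₀ : ℂ)
    (hs : Z.denom.eval s₀ = 0) (b : Polynomial ℂ) (hb : IsBFunction f b) : b.eval s₀ = 0 := by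
  rw [← zetaId_one] at hZ
  exact famT_top E ε hε hE h Z hZ s₀ hs b (locEq1_of_eq f b hb)

end Pool.Agent.H941.ST3
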