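import Pool.Agent.H941.ST.Root
import Pool.Agent.H942.LP.SF0
import Pool.Agent.H942.LP.TW

set_option autoImplicit false

/-! # The topological zeta functions (jets) of a ternary form with the root `-3/d` -/

namespace Pool.Agent.H941.ST

open MvPolynomial Pool.Agent.H628R4.TP Pool.Agent.H940.P

/-- by helper942's and helper940's modules, all other poles are roots -/
theorem ma_mal {f : MvPolynomial (Fin 3) ℂ} {d : ℕ} (hf : f.IsHomogeneous d)
    (h : 0 < d ∧ f ≠ 0 ∧ ∀ b : Polynomial ℂ, IsBFunction f b → b.eval (-3 / d : ℂ) = 0) :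
    MA f ∧ MAL f :=
  Pool.Agent.H942.LP.t_TW f d h.1 h.2.1 hf
    (Pool.Agent.H942.LP.t_SF0 f d h.1 h.2.1 hf h.2.2)

end Pool.Agent.H941.ST
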